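import Pool.Agent.Results.MP_788af2_nt.RationalApproximations
import Pool.Agent.X257.AE.BoxL
import Pool.Agent.TH344.SG.Cor
import Pool.Agent.TH344.DT.Tor

/-!
# The ranks of the rational fibres in short squares

Let `F_0`, `F_1` be binary forms with integer coefficients such that `F_0`, `F_1` and `F_2 = F_0 - F_1`
are constants times odd powers of `n` linear forms each, `n > 0` even, all the `3 n` linear forms pairwise
non-proportional. The curves `y² = x (x - F_0 (u, v)) (x - F_1 (u, v))` are the fibres at the points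
`[u : v]` of a non-isotrivial elliptic surface over the projective line. By Silverman's density conjecture
`100 %` of them should have rank `R` or `R + 1`. We show that large ranks are rarer than any exponential,
and this uniformly in all squares of side `X` with corners at most `X ^ L`: for every `A` and all large
`r` at most `X² / A ^ r` of the coprime pairs `(u, v)` of such a square have rank (plus corank of the
2-primary part of the Tate-Shafarevich group) at least `r`.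
-/

set_option autoImplicit false

namespace Pool.Agent.Results.MP_6cf96a_nt.RankTailsInShortSquares

open Finset Filter

open Pool.Agent.TH344.SH Pool.Agent.TH344.SG

open Pool.Agent.Results.MP_788af2_nt.RationalApproximations (E Surface)

/-- the fibre `y² = x (x - F_0 (u, v)) (x - F_1 (u, v))` at `[u : v]` -/
def fibre (S : Surface) (t : ℤ × ℤ) : WeierstrassCurve ℚ := E (S.F 0 t.1 t.2) (S.F 1 t.1 t.2)

open scoped Classical in
/-- the Mordell-Weil rank -/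
noncomputable def rank (W : WeierstrassCurve ℚ) : ℕ := Module.finrank ℤ W.toAffine.Point

open scoped Classical in
/-- The corank of the 2-primary part of `Ш(W / ℚ)`: the largest `t` such that `(ℤ / 2 ^ n) ^ t` embeds
in `Ш(W / ℚ)` for all `n`. -/
noncomputable def corank (W : WeierstrassCurve ℚ) : ℕ := corank2 (Sha W)

/-- The coprime pairs `(u, v)`, `U < u ≤ U + X`, `V < v ≤ V + X`, at which the fibre is an elliptic curve
and the sum of its rank and its corank is at least `r`. -/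
def High (S : Surface) (r : ℕ) (U V : ℤ) (X : ℕ) : Set (ℤ × ℤ) :=
  {t | (U < t.1 ∧ t.1 ≤ U + X) ∧ (V < t.2 ∧ t.2 ≤ V + X) ∧ IsCoprime t.1 t.2 ∧
    (∀ k, S.F k t.1 t.2 ≠ 0) ∧ r ≤ rank (fibre S t) + corank (fibre S t)}

/-! ### Proof -/

/-- the family -/
def famS (S : Surface) (hS : S.Ok) (h0 : 0 < S.n) : Pool.Agent.TH344.BF.Fam S.n :=
  ⟨S.l, S.m, S.a, h0, hS.even, hS.odd, hS.a_ne, hS.not_prop, hS.sub⟩

theorem two_pow_le {A B : ℤ} (hA : A ≠ 0) (hB : B ≠ 0) (hAB : A ≠ B) :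
    2 ^ (rank (E A B) + corank (E A B)) ≤ (Pool.Agent.W307.SE.Sel A B).ncard := by
  classical
  obtain ⟨h4, h5⟩ := Pool.Agent.TH344.SG.sha_sel A B hA hB hAB (E A B) rfl
    (Pool.Agent.W701.FK.sel_fin' hA hB hAB)
  have h8 := corank2_le (G := Sha (E A B)) (n := 1) le_rfl (by rw [pow_one]; exact h4)
  rw [pow_one] at h8
  rw [pow_add]
  exact (Nat.mul_le_mul_left _ h8).trans h5

open Pool.Agent.TH344.BF Pool.Agent.TH344.DT Pool.Agent.W307.RT in
/-- one fibre -/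
theorem one_le {S : Surface} (hS : S.Ok) {k : ℕ} {T : Finset (Fin 3 × Fin S.n → ℝ)}
    (hT : ∀ t ∈ T, ∀ j, 0 < t j) {t : ℤ × ℤ} (hcop : IsCoprime t.1 t.2)
    (ht : ∀ k, S.F k t.1 t.2 ≠ 0) {r : ℕ} (hr : r ≤ rank (fibre S t) + corank (fibre S t)) :
    1 ≤ Pool.Agent.X257.AE.indP {t : ℤ × ℤ | (∀ j, fv (fun j => (S.l j).1) (fun j => (S.l j).2)
        t.1 t.2 j ≠ 0) ∧ rho T (omB (fun j => (S.l j).1) (fun j => (S.l j).2) t) < 1} t +
      1 / ((2 : ℝ) ^ k) ^ r * WBl S.l S.m S.a k T t := by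
  classical
  have h0 : ∀ j, (S.l j).1 * t.1 + (S.l j).2 * t.2 ≠ 0 := by
    intro j hj
    apply ht j.1
    unfold Surface.F
    apply mul_eq_zero_of_right
    apply prod_eq_zero (mem_univ j.2)
    have h1 : ((S.l (j.1, j.2)).1 * t.1 + (S.l (j.1, j.2)).2 * t.2) = 0 := hj
    rw [h1]
    exact zero_pow (hS.odd _).pos.ne'
  by_cases hrho : rho T (omB (fun j => (S.l j).1) (fun j => (S.l j).2) t) < 1
  · have h1 : Pool.Agent.X257.AE.indP {t : ℤ × ℤ | (∀ j, fv (fun j => (S.l j).1)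
        (fun j => (S.l j).2) t.1 t.2 j ≠ 0) ∧
        rho T (omB (fun j => (S.l j).1) (fun j => (S.l j).2) t) < 1} t = 1 := by
      unfold Pool.Agent.X257.AE.indP
      rw [if_pos]
      exact ⟨h0, hrho⟩
    rw [h1]
    have h2 : 0 ≤ 1 / ((2 : ℝ) ^ k) ^ r * WBl S.l S.m S.a k T t :=
      mul_nonneg (by positivity) (WBl_nonneg _ _ _ _ hT t)
    linarith
  · have h3 : rho T (omB (fun j => (S.l j).1) (fun j => (S.l j).2) t) = 1 :=
      le_antisymm (rho_le_one _ _) (not_lt.1 hrho)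
    have h4 : WBl S.l S.m S.a k T t =
        ((Pool.Agent.W307.SE.Sel (S.F 0 t.1 t.2) (S.F 1 t.1 t.2)).ncard : ℝ) ^ k := by
      unfold WBl
      rw [if_pos ⟨hcop, h0⟩, h3, mul_one]
      rfl
    rw [h4]
    have hne : S.F 0 t.1 t.2 ≠ S.F 1 t.1 t.2 := by
      intro h
      apply ht 2
      rw [← hS.sub, h, sub_self]
    have h5 := two_pow_le (ht 0) (ht 1) hne
    have h7 : 2 ^ r ≤ (Pool.Agent.W307.SE.Sel (S.F 0 t.1 t.2) (S.F 1 t.1 t.2)).ncard :=
      (Nat.pow_le_pow_right (by norm_num) hr).trans h5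
    have h8 : ((2 : ℝ) ^ k) ^ r ≤
        ((Pool.Agent.W307.SE.Sel (S.F 0 t.1 t.2) (S.F 1 t.1 t.2)).ncard : ℝ) ^ k := by
      rw [← pow_mul, mul_comm k r, pow_mul]
      exact pow_le_pow_left₀ (by positivity) (by exact_mod_cast h7) k
    have h9 : 1 ≤ 1 / ((2 : ℝ) ^ k) ^ r *
        ((Pool.Agent.W307.SE.Sel (S.F 0 t.1 t.2) (S.F 1 t.1 t.2)).ncard : ℝ) ^ k := by
      rw [one_div, inv_mul_eq_div, le_div_iff₀ (by positivity), one_mul]
      exact h8
    have h10 := Pool.Agent.X257.AE.indP_nonneg {t : ℤ × ℤ | (∀ j, fv (fun j => (S.l j).1)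
        (fun j => (S.l j).2) t.1 t.2 j ≠ 0) ∧
        rho T (omB (fun j => (S.l j).1) (fun j => (S.l j).2) t) < 1} t
    linarith

/-- **Theorem.** Let `S` be a surface with `n > 0` which satisfies the conditions `Ok`. For all `L` and
`A ≥ 1` there is `r₀` such that for all `r ≥ r₀` and all large `X`: for all `|U|, |V| ≤ X ^ L` at most
`X² / A ^ r` of the coprime pairs `(u, v)` with `U < u ≤ U + X`, `V < v ≤ V + X` have a fibre which is an
elliptic curve with `rank + corank ≥ r`. -/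
theorem result (S : Surface) (hS : S.Ok) (hn : 0 < S.n) (L A : ℕ) (hA : 1 ≤ A) :
    ∃ r₀ : ℕ, ∀ r : ℕ, r₀ ≤ r → ∃ X₀ : ℕ, ∀ X : ℕ, X₀ ≤ X → ∀ U V : ℤ, |U| ≤ (X : ℤ) ^ L →
      |V| ≤ (X : ℤ) ^ L → (High S r U V X).Finite ∧
        ((High S r U V X).ncard : ℝ) ≤ (X : ℝ) ^ 2 / (A : ℝ) ^ r := by
  classical
  obtain ⟨T, hT1, hT2, C, hC0, hC⟩ := Pool.Agent.X257.AE.BL.box_w (L := L + 1) (by omega)
    (famS S hS hn) (k := A) hA
  have hA0 : (0 : ℝ) < A := by
    have : 0 < A := hA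
    exact_mod_cast this
  refine ⟨⌈2 * C⌉₊, fun r hr => ?_⟩
  obtain ⟨X1, hX1⟩ := Pool.Agent.X257.AE.BL.bad_sq (L := L + 1) (by omega)
    (fun j => (S.l j).1) (fun j => (S.l j).2)
    (fun j => Pool.Agent.TH344.BF.not_both (famS S hS hn) j) T hT1 hT2
    (1 / 2 * (1 / (A : ℝ) ^ r)) (by positivity)
  refine ⟨X1 + 1, fun X hX U V hU hV => ?_⟩
  have hXpos : (1 : ℤ) ≤ X := by exact_mod_cast (by omega : 1 ≤ X)
  have hp : (X : ℤ) ^ L ≤ (X : ℤ) ^ (L + 1) := pow_le_pow_right₀ hXpos (by omega)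
  have h1 := hX1 X U V (by omega) (hU.trans hp) (hV.trans hp)
  have h2 := hC X U V (by omega) (hU.trans hp) (hV.trans hp)
  have hsub : High S r U V X ⊆ ((Ioc U (U + (X : ℤ)) ×ˢ Ioc V (V + (X : ℤ)) : Finset (ℤ × ℤ)) :
      Set (ℤ × ℤ)) := by
    rintro t ⟨a1, a2, -⟩
    rw [mem_coe, mem_product, mem_Ioc, mem_Ioc]
    exact ⟨a1, a2⟩
  have hfin : (High S r U V X).Finite := (finite_toSet _).subset hsub
  refine ⟨hfin, ?_⟩
  rw [Set.ncard_eq_toFinset_card _ hfin]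
  have h3 : ((hfin.toFinset.card : ℕ) : ℝ) ≤ ∑ t ∈ Ioc U (U + (X : ℤ)) ×ˢ Ioc V (V + (X : ℤ)),
      (Pool.Agent.X257.AE.indP {t : ℤ × ℤ |
      (∀ j, Pool.Agent.W307.RT.fv (fun j => (S.l j).1) (fun j => (S.l j).2) t.1 t.2 j ≠ 0) ∧
      Pool.Agent.TH344.DT.rho T (Pool.Agent.TH344.BF.omB (fun j => (S.l j).1)
        (fun j => (S.l j).2) t) < 1} t +
      1 / ((2 : ℝ) ^ A) ^ r * Pool.Agent.TH344.BF.WBl S.l S.m S.a A T t) := by
    rw [card_eq_sum_ones, Nat.cast_sum]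
    refine le_trans (sum_le_sum (g := fun t => Pool.Agent.X257.AE.indP {t : ℤ × ℤ |
      (∀ j, Pool.Agent.W307.RT.fv (fun j => (S.l j).1) (fun j => (S.l j).2) t.1 t.2 j ≠ 0) ∧
      Pool.Agent.TH344.DT.rho T (Pool.Agent.TH344.BF.omB (fun j => (S.l j).1)
        (fun j => (S.l j).2) t) < 1} t +
      1 / ((2 : ℝ) ^ A) ^ r * Pool.Agent.TH344.BF.WBl S.l S.m S.a A T t) fun t ht => ?_)
      (sum_le_sum_of_subset_of_nonneg (fun t ht => ?_) fun t _ _ => ?_)
    · obtain ⟨-, -, ht1, ht2, ht3⟩ := hfin.mem_toFinset.1 ht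
      rw [Nat.cast_one]
      exact one_le hS hT1 ht1 ht2 ht3
    · exact mem_coe.1 (hsub (hfin.mem_toFinset.1 ht))
    · exact add_nonneg (Pool.Agent.X257.AE.indP_nonneg _ _)
        (mul_nonneg (by positivity) (Pool.Agent.TH344.BF.WBl_nonneg _ _ _ _ hT1 t))
  refine h3.trans ?_
  rw [sum_add_distrib, ← mul_sum]
  have h4 : 1 / ((2 : ℝ) ^ A) ^ r * (C * (X : ℝ) ^ 2) ≤ 1 / 2 * (1 / (A : ℝ) ^ r) * (X : ℝ) ^ 2 := by
    rw [← mul_assoc]
    refine mul_le_mul_of_nonneg_right ?_ (by positivity)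
    have e1 : (2 : ℝ) * A ≤ 2 ^ A := by
      have e2 : ∀ n : ℕ, 2 * (n + 1) ≤ 2 ^ (n + 1) := by
        intro n
        induction n with
        | zero => norm_num
        | succ n ih =>
          have : 2 ^ (n + 1 + 1) = 2 * 2 ^ (n + 1) := by ring
          omega
      have e3 : 2 * A ≤ 2 ^ A := by
        obtain ⟨m, rfl⟩ : ∃ m, A = m + 1 := ⟨A - 1, by omega⟩
        exact e2 m
      exact_mod_cast e3
    have e2 : (2 * (A : ℝ)) ^ r ≤ ((2 : ℝ) ^ A) ^ r := pow_le_pow_left₀ (by positivity) e1 r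
    have e3 : 2 * C ≤ 2 ^ r := by
      have e4 : 2 * C ≤ ⌈2 * C⌉₊ := Nat.le_ceil _
      have e5 : (⌈2 * C⌉₊ : ℝ) ≤ r := by exact_mod_cast hr
      have e6 : (r : ℝ) ≤ 2 ^ r := by
        have : r ≤ 2 ^ r := Nat.lt_two_pow_self.le
        exact_mod_cast this
      linarith
    have e4 : 1 / ((2 : ℝ) ^ A) ^ r ≤ 1 / (2 * (A : ℝ)) ^ r :=
      one_div_le_one_div_of_le (by positivity) e2
    calc 1 / ((2 : ℝ) ^ A) ^ r * C ≤ 1 / (2 * (A : ℝ)) ^ r * C :=
          mul_le_mul_of_nonneg_right e4 hC0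
      _ = 1 / (A : ℝ) ^ r * (C / 2 ^ r) := by
          rw [mul_pow]
          field_simp
      _ ≤ 1 / (A : ℝ) ^ r * (1 / 2) := by
          refine mul_le_mul_of_nonneg_left ?_ (by positivity)
          rw [div_le_iff₀ (by positivity)]
          linarith
      _ = 1 / 2 * (1 / (A : ℝ) ^ r) := by ring
  have h5 : 1 / ((2 : ℝ) ^ A) ^ r * ∑ t ∈ Ioc U (U + (X : ℤ)) ×ˢ Ioc V (V + (X : ℤ)),
      Pool.Agent.TH344.BF.WBl S.l S.m S.a A T t ≤ 1 / ((2 : ℝ) ^ A) ^ r * (C * (X : ℝ) ^ 2) :=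
    mul_le_mul_of_nonneg_left h2 (by positivity)
  have h6 : (X : ℝ) ^ 2 / (A : ℝ) ^ r = 1 / 2 * (1 / (A : ℝ) ^ r) * (X : ℝ) ^ 2 +
      1 / 2 * (1 / (A : ℝ) ^ r) * (X : ℝ) ^ 2 := by ring
  rw [h6]
  exact add_le_add h1 (h5.trans h4)

end Pool.Agent.Results.MP_6cf96a_nt.RankTailsInShortSquares
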